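import Pool.Agent.W175.GF.Stm

set_option autoImplicit false

namespace Pool.Agent.W848.GF

open Complex Topology Filter Pool.Agent.W175.GF
open scoped Polynomial

lemma ev_sum (Q : ℂ[X][X]) (x y : ℂ) :
    Q.evalEval x y = ∑ k ∈ Finset.range (Q.natDegree + 1), (Q.coeff k).eval x * y ^ k := by
  rw [Polynomial.evalEval, Polynomial.eval_eq_sum_range (p := Q), Polynomial.eval_finsetSum]
  refine Finset.sum_congr rfl (fun k _ => ?_)
  rw [← Polynomial.C_pow, Polynomial.eval_mul, Polynomial.eval_C]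

lemma ev_der (Q : ℂ[X][X]) (x y : ℂ) :
    (Polynomial.derivative Q).evalEval x y =
      ∑ k ∈ Finset.range (Q.natDegree + 1), k * (Q.coeff k).eval x * y ^ (k - 1) := by
  rw [Polynomial.evalEval, Polynomial.derivative_eval, Polynomial.sum_over_range,
    Polynomial.eval_finsetSum]
  · refine Finset.sum_congr rfl (fun k _ => ?_)
    simp only [Polynomial.eval_mul, Polynomial.eval_natCast, Polynomial.eval_pow,
      Polynomial.eval_C]
    ring
  · intro n
    simp

lemma ev_diff {Ω : Set ℂ} {f : ℂ → ℂ} (hf : DifferentiableOn ℂ f Ω) (Q : ℂ[X][X]) :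
    DifferentiableOn ℂ (fun t => Q.evalEval t (f t)) Ω := by
  have : (fun t => Q.evalEval t (f t)) =
      fun t => ∑ k ∈ Finset.range (Q.natDegree + 1), (Q.coeff k).eval t * (f t) ^ k := by
    ext t
    exact ev_sum Q t (f t)
  rw [this]
  refine DifferentiableOn.fun_sum (fun k _ => ?_)
  exact (Q.coeff k).differentiable.differentiableOn.mul (hf.pow k)

/-- an irreducible polynomial relation -/
lemma exists_irr {Ω : Set ℂ} {f : ℂ → ℂ} (hΩ : IsOpen Ω) (hp : IsPreconnected Ω)
    (hne : Ω.Nonempty) (hf : DifferentiableOn ℂ f Ω) (Q : ℂ[X][X]) :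
    Q ≠ 0 → (∀ t ∈ Ω, Q.evalEval t (f t) = 0) →
    ∃ P : ℂ[X][X], Irreducible P ∧ ∀ t ∈ Ω, P.evalEval t (f t) = 0 := by
  refine WfDvdMonoid.induction_on_irreducible Q (fun h => absurd rfl h) ?_ ?_
  · intro u hu _ h
    obtain ⟨t, ht⟩ := hne
    obtain ⟨v, hv⟩ := hu.exists_right_inv
    have h1 := congrArg (fun P => Polynomial.evalEval t (f t) P) hv
    simp only [Polynomial.evalEval_mul, h t ht, zero_mul, Polynomial.evalEval_one] at h1
    exact absurd h1 zero_ne_one
  · intro a i ha hi ih _ h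
    have h1 : ∀ t ∈ Ω, i.evalEval t (f t) * a.evalEval t (f t) = 0 := by
      intro t ht
      rw [← Polynomial.evalEval_mul]
      exact h t ht
    rcases ((ev_diff hf i).analyticOnNhd hΩ).eq_zero_or_eq_zero_of_mul_eq_zero
      ((ev_diff hf a).analyticOnNhd hΩ) h1 hp with h2 | h2
    · exact ⟨i, hi, h2⟩
    · exact ih ha h2

lemma sep_pol {Ω : Set ℂ} {f : ℂ → ℂ} (hΩ : IsOpen Ω) (hp : IsPreconnected Ω)
    (hne : Ω.Nonempty) (hf : DifferentiableOn ℂ f Ω) (Q : ℂ[X][X])
    (hQ : Q ≠ 0) (hQ0 : ∀ t ∈ Ω, Q.evalEval t (f t) = 0) :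
    ∃ (P : ℂ[X][X]) (D : ℂ[X]), P ≠ 0 ∧ D ≠ 0 ∧ (∀ t ∈ Ω, P.evalEval t (f t) = 0) ∧
      ∀ t : ℂ, D.eval t ≠ 0 → (P.coeff P.natDegree).eval t ≠ 0 ∧
        ∀ y : ℂ, P.evalEval t y = 0 → (Polynomial.derivative P).evalEval t y ≠ 0 := by
  obtain ⟨P, hP, hP0⟩ := exists_irr hΩ hp hne hf Q hQ hQ0
  have hdeg : P.natDegree ≠ 0 := by
    intro h
    obtain ⟨p, hpc⟩ := Polynomial.natDegree_eq_zero.1 h
    have hpne : p ≠ 0 := by
      rintro rfl
      rw [map_zero] at hpc
      exact hP.ne_zero hpc.symm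
    have hinf : Ω.Infinite := by
      obtain ⟨t, ht⟩ := hne
      exact infinite_of_mem_nhds t (hΩ.mem_nhds ht)
    apply hpne
    refine Polynomial.eq_zero_of_infinite_isRoot p (hinf.mono (fun t ht => ?_))
    have := hP0 t ht
    rw [← hpc] at this
    simpa [Polynomial.evalEval] using this
  let K := FractionRing ℂ[X]
  have hprim := hP.isPrimitive hdeg
  have hirr : Irreducible (P.map (algebraMap ℂ[X] K)) :=
    hprim.irreducible_iff_irreducible_map_fraction_map.1 hP
  obtain ⟨a, b, hab⟩ := hirr.separable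
  obtain ⟨c, hc0, hc⟩ := IsLocalization.integerNormalization_spec (nonZeroDivisors ℂ[X]) a
  obtain ⟨d, hd0, hd⟩ := IsLocalization.integerNormalization_spec (nonZeroDivisors ℂ[X]) b
  set a' := IsLocalization.integerNormalization (nonZeroDivisors ℂ[X]) a
  set b' := IsLocalization.integerNormalization (nonZeroDivisors ℂ[X]) b
  have hc1 : c ≠ 0 := nonZeroDivisors.ne_zero hc0
  have hd1 : d ≠ 0 := nonZeroDivisors.ne_zero hd0
  have key : Polynomial.C (c * d) = Polynomial.C d * a' * P +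
      Polynomial.C c * b' * Polynomial.derivative P := by
    apply Polynomial.map_injective (algebraMap ℂ[X] K) (IsFractionRing.injective _ _)
    rw [Polynomial.map_add, Polynomial.map_mul, Polynomial.map_mul, Polynomial.map_mul,
      Polynomial.map_mul, ← Polynomial.derivative_map, hc, hd, Polynomial.map_C, Polynomial.map_C,
      Polynomial.map_C]
    rw [Algebra.smul_def, Algebra.smul_def, Polynomial.algebraMap_apply,
      Polynomial.algebraMap_apply, map_mul, map_mul]
    linear_combination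
      (-(Polynomial.C (algebraMap ℂ[X] K c) * Polynomial.C (algebraMap ℂ[X] K d))) * hab
  refine ⟨P, c * d * P.coeff P.natDegree, hP.ne_zero, ?_, hP0, ?_⟩
  · refine mul_ne_zero (mul_ne_zero hc1 hd1) ?_
    exact Polynomial.leadingCoeff_ne_zero.2 hP.ne_zero
  · intro t ht
    rw [Polynomial.eval_mul] at ht
    refine ⟨right_ne_zero_of_mul ht, fun y hy hy' => ?_⟩
    have h1 := congrArg (fun P => Polynomial.evalEval t y P) key
    simp only [Polynomial.evalEval_add, Polynomial.evalEval_mul, hy, hy', mul_zero,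
      add_zero, Polynomial.evalEval_C] at h1
    exact left_ne_zero_of_mul ht h1

end Pool.Agent.W848.GF
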