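import Pool.Agent.W848.GF.Lift
import Pool.Agent.W848.GF.Sep

set_option autoImplicit false

namespace Pool.Agent.W848.GF

open Complex Topology Filter Pool.Agent.W175.GF
open scoped Polynomial

lemma exists_base {Ω : Set ℂ} (hΩ : IsOpen Ω) (hne : Ω.Nonempty) (B : Set ℂ) (hB : B.Finite) :
    ∃ t₁ ∈ Ω, ∀ b ∈ B, b.im ≠ t₁.im := by
  obtain ⟨t, ht⟩ := hne
  obtain ⟨ε, hε, hball⟩ := Metric.isOpen_iff.1 hΩ t ht
  obtain ⟨x, hx, hx'⟩ := (Set.Ioo_infinite hε).exists_notMem_finite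
    (hB.image (fun b : ℂ => b.im - t.im))
  refine ⟨t + (x : ℂ) * I, hball ?_, ?_⟩
  · rw [Metric.mem_ball, dist_eq_norm]
    simp only [add_sub_cancel_left, norm_mul, norm_real, norm_I, mul_one, Real.norm_eq_abs]
    rw [abs_of_pos hx.1]
    exact hx.2
  · intro b hb h
    apply hx'
    refine ⟨b, hb, ?_⟩
    simp only [h, add_im, mul_im, ofReal_re, I_im, mul_one, ofReal_im, I_re, mul_zero, add_zero]
    ring

/-- the domain in the logarithmic coordinate -/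
def Om (ρ δ : ℝ) : Set ℂ := {w | ρ < w.re} ∪ {w | |w.im| < δ}

lemma Om_open (ρ δ : ℝ) : IsOpen (Om ρ δ) := by
  refine IsOpen.union ?_ ?_
  · exact isOpen_lt continuous_const continuous_re
  · exact isOpen_lt continuous_im.abs continuous_const

lemma Om_star (ρ δ : ℝ) (hδ : 0 < δ) : StarConvex ℝ ((ρ + 1 : ℝ) : ℂ) (Om ρ δ) := by
  refine StarConvex.union ?_ ?_
  · apply (convex_halfSpace_re_gt ρ).starConvex
    simp
  · have h : {w : ℂ | |w.im| < δ} = {w : ℂ | -δ < w.im} ∩ {w : ℂ | w.im < δ} := by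
      ext w
      simp [abs_lt]
    rw [h]
    apply ((convex_halfSpace_im_gt (-δ)).inter (convex_halfSpace_im_lt δ)).starConvex
    simp [hδ]

lemma Om_mem (ρ δ : ℝ) : ((ρ + 1 : ℝ) : ℂ) ∈ Om ρ δ := by
  left
  simp

lemma Om_pre (ρ δ : ℝ) (hδ : 0 < δ) : IsPreconnected (Om ρ δ) :=
  ((Om_star ρ δ hδ).isPathConnected (Om_mem ρ δ)).isConnected.isPreconnected

lemma avoid (B : Set ℂ) (hB : B.Finite) (t₁ : ℂ) (hb : ∀ b ∈ B, b.im ≠ t₁.im) :
    ∃ ρ δ : ℝ, 0 < δ ∧ ∀ w ∈ Om ρ δ, t₁ + exp w ∉ B := by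
  have h1 : ∀ᶠ δ : ℝ in 𝓝[>] 0, ∀ b ∈ B, δ < |arg (b - t₁)| := by
    rw [Filter.eventually_all_finite hB]
    intro b hbB
    have h2 : arg (b - t₁) ≠ 0 := by
      intro h
      have := (arg_eq_zero_iff.1 h).2
      rw [sub_im] at this
      exact hb b hbB (by linarith)
    have h3 : (0 : ℝ) < |arg (b - t₁)| := abs_pos.2 h2
    exact nhdsWithin_le_nhds (Iio_mem_nhds h3)
  have h2 : ∀ᶠ δ : ℝ in 𝓝[>] 0, δ < Real.pi := nhdsWithin_le_nhds (Iio_mem_nhds Real.pi_pos)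
  have h3 : ∀ᶠ δ : ℝ in 𝓝[>] 0, 0 < δ := self_mem_nhdsWithin
  obtain ⟨δ, hδ1, hδ2, hδ3⟩ := (h1.and (h2.and h3)).exists
  have h4 : ∀ᶠ ρ : ℝ in atTop, ∀ b ∈ B, ‖b - t₁‖ ≤ Real.exp ρ := by
    rw [Filter.eventually_all_finite hB]
    intro b _
    exact Real.tendsto_exp_atTop.eventually (eventually_ge_atTop _)
  obtain ⟨ρ, hρ⟩ := h4.exists
  refine ⟨ρ, δ, hδ3, ?_⟩
  rintro w (hw | hw) hwB
  · have h5 := hρ _ hwB
    rw [add_sub_cancel_left, norm_exp] at h5
    have h6 : ρ < w.re := hw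
    have := Real.exp_lt_exp.2 h6
    linarith
  · have h5 := hδ1 _ hwB
    rw [add_sub_cancel_left] at h5
    have h6 : |w.im| < δ := hw
    have h7 := abs_lt.1 h6
    have h8 : arg (exp w) = w.im := by
      rw [← log_im, log_exp (by linarith) (by linarith)]
    rw [h8] at h5
    linarith

lemma local_eq {Ω : Set ℂ} {d : ℕ} {c : ℕ → ℂ → ℂ} (hΩ : IsOpen Ω)
    (hc : ∀ k, DifferentiableOn ℂ (c k) Ω) (w : ℂ) (hw : w ∈ Ω) (g h : ℂ → ℂ)
    (hg : ContinuousAt g w) (hh : ContinuousAt h w) (hgh : g w = h w)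
    (h1 : ∑ k ∈ Finset.range (d + 1), k * c k w * g w ^ (k - 1) ≠ 0)
    (hg0 : ∀ᶠ v in 𝓝 w, PP d c (v, g v) = 0) (hh0 : ∀ᶠ v in 𝓝 w, PP d c (v, h v) = 0) :
    ∀ᶠ v in 𝓝 w, g v = h v := by
  obtain ⟨ψ, -, -, h2, -⟩ := impl hΩ hc (w, g w) hw hg0.self_of_nhds h1
  have h3 : Tendsto (fun v => (v, g v)) (𝓝 w) (𝓝 (w, g w)) :=
    (continuousAt_id.prodMk hg).tendsto
  have h4 : Tendsto (fun v => (v, h v)) (𝓝 w) (𝓝 (w, g w)) := by
    rw [hgh]
    exact (continuousAt_id.prodMk hh).tendsto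
  filter_upwards [h3.eventually h2, h4.eventually h2, hg0, hh0] with v a1 a2 a3 a4
  exact (a1.1 a3).symm.trans (a2.1 a4)

/-- continuation of one root -/
lemma one_root (h1 : S_LIFT) {Ω : Set ℂ} {f : ℂ → ℂ} (hΩ : IsOpen Ω)
    (hf : DifferentiableOn ℂ f Ω) (P : ℂ[X][X]) (hroot : ∀ t ∈ Ω, P.evalEval t (f t) = 0)
    (ρ δ : ℝ) (hδ : 0 < δ) (t₁ : ℂ)
    (hgood : ∀ w ∈ Om ρ δ, (P.coeff P.natDegree).eval (t₁ + exp w) ≠ 0 ∧
        ∀ y : ℂ, P.evalEval (t₁ + exp w) y = 0 →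
          (Polynomial.derivative P).evalEval (t₁ + exp w) y ≠ 0)
    (w₀ : ℂ) (hw₀ : w₀ ∈ Om ρ δ) (hφ₀ : t₁ + exp w₀ ∈ Ω) :
    ∃ Y : ℂ → ℂ, DifferentiableOn ℂ Y (Om ρ δ) ∧ (∀ᶠ w in 𝓝 w₀, Y w = f (t₁ + exp w)) ∧
      ∀ w ∈ Om ρ δ, P.evalEval (t₁ + exp w) (Y w) = 0 := by
  have hφ : Differentiable ℂ (fun w => t₁ + exp w) := by fun_prop
  have hc : ∀ k, DifferentiableOn ℂ (fun w => (P.coeff k).eval (t₁ + exp w)) (Om ρ δ) := by
    intro k
    have : Differentiable ℂ (fun w => (P.coeff k).eval (t₁ + exp w)) :=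
      (P.coeff k).differentiable.comp hφ
    exact this.differentiableOn
  have hPP : ∀ w y, PP P.natDegree (fun k w => (P.coeff k).eval (t₁ + exp w)) (w, y) =
      P.evalEval (t₁ + exp w) y := by
    intro w y
    rw [ev_sum]
    rfl
  obtain ⟨Y, hY1, hY2, hY3⟩ := h1 (Om ρ δ) ((ρ + 1 : ℝ) : ℂ) w₀ (f (t₁ + exp w₀)) P.natDegree
    (fun k w => (P.coeff k).eval (t₁ + exp w)) (Om_open ρ δ) (Om_mem ρ δ) (Om_star ρ δ hδ) hw₀ hc
    (fun w hw => (hgood w hw).1)
    (fun w hw y hy => by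
      have h2 := (hgood w hw).2 y (by rw [ev_sum]; exact hy)
      rw [ev_der] at h2
      exact h2)
    (by
      have := hroot _ hφ₀
      rw [ev_sum] at this
      exact this)
  refine ⟨Y, hY1, ?_, ?_⟩
  · have hfc : ContinuousAt (fun w => f (t₁ + exp w)) w₀ :=
      ContinuousAt.comp (f := fun w => t₁ + exp w) (g := f)
        ((hf.continuousOn).continuousAt (hΩ.mem_nhds hφ₀)) hφ.continuous.continuousAt
    refine local_eq (d := P.natDegree) (c := fun k w => (P.coeff k).eval (t₁ + exp w))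
      (Om_open ρ δ) hc w₀ hw₀ Y (fun w => f (t₁ + exp w))
      (hY1.continuousOn.continuousAt ((Om_open ρ δ).mem_nhds hw₀)) hfc hY2 ?_ ?_ ?_
    · have h2 := (hgood w₀ hw₀).2 (Y w₀) (by rw [ev_sum]; exact hY3 w₀ hw₀)
      rw [ev_der] at h2
      exact h2
    · filter_upwards [(Om_open ρ δ).mem_nhds hw₀] with w hw
      rw [hPP, ev_sum]
      exact hY3 w hw
    · have := hφ.continuous.continuousAt.tendsto.eventually (hΩ.mem_nhds hφ₀)
      filter_upwards [this] with w hw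
      rw [hPP]
      exact hroot _ hw
  · intro w hw
    rw [ev_sum]
    exact hY3 w hw

lemma mer_pow {R r : ℝ} {g : ℂ → ℂ} {n : ℕ} (hn : 1 ≤ n) (hR : R ≤ 1)
    (hRr : R ≤ r) (hg : Mer r g) : Mer R (fun s => g (s ^ n)) := by
  have hmap : Set.MapsTo (fun s : ℂ => s ^ n) (U R) (U r) := by
    intro s hs
    refine ⟨?_, ?_⟩
    · rw [norm_pow]
      exact pow_pos hs.1 n
    · rw [norm_pow]
      calc ‖s‖ ^ n ≤ ‖s‖ ^ 1 := pow_le_pow_of_le_one (norm_nonneg s) (by linarith [hs.2]) hn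
        _ = ‖s‖ := pow_one _
        _ < R := hs.2
        _ ≤ r := hRr
  obtain ⟨h1, D, C, h2⟩ := hg
  refine ⟨h1.comp (by fun_prop) hmap, n * D, C, ?_⟩
  intro s hs
  have := h2 _ (hmap hs)
  rw [norm_pow] at this
  rw [pow_mul, inv_pow]
  exact this

theorem cont (h1 : S_LIFT) (h2 : S_PUIS) : S_CONT := by
  intro Ω ι _ i₀ f hΩ hpc hne hf hid halg
  have hsep : ∀ i, ∃ (P : ℂ[X][X]) (D : ℂ[X]), P ≠ 0 ∧ D ≠ 0 ∧
      (∀ t ∈ Ω, P.evalEval t (f i t) = 0) ∧
      ∀ t : ℂ, D.eval t ≠ 0 → (P.coeff P.natDegree).eval t ≠ 0 ∧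
        ∀ y : ℂ, P.evalEval t y = 0 → (Polynomial.derivative P).evalEval t y ≠ 0 := by
    intro i
    obtain ⟨Q, hQ, hQ0⟩ := halg i
    refine sep_pol hΩ hpc hne (hf i) Q hQ (fun t ht => ?_)
    have := hQ0 t ht
    rwa [hid t ht] at this
  choose P D hP hD hroot hgood using hsep
  set B : Set ℂ := {t | (∏ i, D i).IsRoot t} with hBdef
  have hprod : (∏ i, D i) ≠ 0 := Finset.prod_ne_zero_iff.2 (fun i _ => hD i)
  have hB : B.Finite := Polynomial.finite_setOfPred_isRoot hprod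
  obtain ⟨t₁, ht₁, hb⟩ := exists_base hΩ hne B hB
  obtain ⟨ρ, δ', hδ', hav⟩ := avoid B hB t₁ hb
  have hDw : ∀ w ∈ Om ρ δ', ∀ i, (D i).eval (t₁ + exp w) ≠ 0 := by
    intro w hw i h
    apply hav w hw
    change (∏ i, D i).eval (t₁ + exp w) = 0
    rw [Polynomial.eval_prod]
    exact Finset.prod_eq_zero (Finset.mem_univ i) h
  obtain ⟨δ, hδ, hball⟩ := Metric.isOpen_iff.1 hΩ t₁ ht₁
  set w₀ : ℂ := ((Real.log (δ / 2) : ℝ) : ℂ) with hw₀def
  have hw₀ : w₀ ∈ Om ρ δ' := by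
    right
    change |w₀.im| < δ'
    rw [hw₀def, ofReal_im, abs_zero]
    exact hδ'
  have hφ₀ : t₁ + exp w₀ ∈ Ω := by
    apply hball
    rw [Metric.mem_ball, dist_eq_norm, add_sub_cancel_left, norm_exp, hw₀def, ofReal_re,
      Real.exp_log (by linarith)]
    linarith
  have hY := fun i => one_root h1 hΩ (hf i) (P i) (hroot i) ρ δ' hδ' t₁
    (fun w hw => hgood i _ (hDw w hw i)) w₀ hw₀ hφ₀
  choose Y hYd hYloc hYr using hY
  have hφ : Differentiable ℂ (fun w => t₁ + exp w) := by fun_prop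
  have hφΩ : ∀ᶠ w in 𝓝 w₀, t₁ + exp w ∈ Ω :=
    hφ.continuous.continuousAt.tendsto.eventually (hΩ.mem_nhds hφ₀)
  have hYi0 : ∀ w ∈ Om ρ δ', Y i₀ w = t₁ + exp w := by
    intro w hw
    refine AnalyticOnNhd.eqOn_of_preconnected_of_eventuallyEq
      ((hYd i₀).analyticOnNhd (Om_open ρ δ')) (hφ.differentiableOn.analyticOnNhd (Om_open ρ δ'))
      (Om_pre ρ δ' hδ') hw₀ ?_ hw
    filter_upwards [hYloc i₀, hφΩ] with v hv hv'
    rw [hv, hid _ hv']
  have hpu := fun i => h2 ρ t₁ (P i) (Y i) (hP i)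
    ((hYd i).mono (fun w hw => Or.inl hw)) (fun w hw => hYr i w (Or.inl hw))
  choose e r g he hr hg hgY using hpu
  set E := ∏ i, e i with hEdef
  have hE : 1 ≤ E := Finset.one_le_prod' (fun i _ => he i)
  choose e' he' using fun i => Finset.dvd_prod_of_mem e (Finset.mem_univ i)
  have he'1 : ∀ i, 1 ≤ e' i := by
    intro i
    rcases Nat.eq_zero_or_pos (e' i) with h | h
    · have := he' i
      rw [h, mul_zero] at this
      rw [hEdef, this] at hE
      omega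
    · exact h
  obtain ⟨R, hR0, hR1, hRr⟩ : ∃ R : ℝ, 0 < R ∧ R < 1 ∧ ∀ i, R ≤ r i := by
    have a1 : ∀ᶠ R : ℝ in 𝓝[>] 0, ∀ i, R ≤ r i := by
      rw [Filter.eventually_all]
      intro i
      exact nhdsWithin_le_nhds (Iic_mem_nhds (hr i))
    have a2 : ∀ᶠ R : ℝ in 𝓝[>] 0, R < 1 := nhdsWithin_le_nhds (Iio_mem_nhds one_pos)
    have a3 : ∀ᶠ R : ℝ in 𝓝[>] 0, 0 < R := self_mem_nhdsWithin
    obtain ⟨R, b1, b2, b3⟩ := (a1.and (a2.and a3)).exists
    exact ⟨R, b3, b2, b1⟩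
  have hEc : (E : ℂ) ≠ 0 := by
    have : E ≠ 0 := by omega
    exact_mod_cast this
  have hpow : ∀ i (w : ℂ), exp (-w / E) ^ e' i = exp (-w / e i) := by
    intro i w
    rw [← exp_nat_mul]
    congr 1
    have h3 : (E : ℂ) = e i * e' i := by exact_mod_cast he' i
    have h4 : (e i : ℂ) ≠ 0 := by
      intro h
      rw [h3, h, zero_mul] at hEc
      exact hEc rfl
    have h5 : (e' i : ℂ) ≠ 0 := by
      intro h
      rw [h3, h, mul_zero] at hEc
      exact hEc rfl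
    rw [h3]
    field_simp
  have hUmap : ∀ i, ∀ s ∈ U R, s ^ e' i ∈ U (r i) := by
    intro i s hs
    refine ⟨?_, ?_⟩
    · rw [norm_pow]
      exact pow_pos hs.1 _
    · rw [norm_pow]
      calc ‖s‖ ^ e' i ≤ ‖s‖ ^ 1 :=
            pow_le_pow_of_le_one (norm_nonneg s) (by linarith [hs.2]) (he'1 i)
        _ = ‖s‖ := pow_one _
        _ < R := hs.2
        _ ≤ r i := hRr i
  have hFY : ∀ w : ℂ, exp (-w / E) ∈ U R →
      ρ < w.re ∧ ∀ i, g i (exp (-w / E) ^ e' i) = Y i w := by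
    intro w hw
    have h3 : ∀ i, ρ < w.re ∧ Y i w = g i (exp (-w / e i)) := by
      intro i
      apply hgY i w
      rw [← hpow]
      exact hUmap i _ hw
    refine ⟨(h3 i₀).1, fun i => ?_⟩
    rw [hpow]
    exact (h3 i).2.symm
  have hsurj : ∀ s ∈ U R, ∃ w : ℂ, exp (-w / E) = s ∧ exp w = s⁻¹ ^ E := by
    intro s hs
    have hs0 : s ≠ 0 := norm_pos_iff.1 hs.1
    refine ⟨-(E * log s), ?_, ?_⟩
    · have : -(-(E * log s)) / E = log s := by field_simp
      rw [this, exp_log hs0]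
    · rw [exp_neg, exp_nat_mul, exp_log hs0, inv_pow]
  have hGan : ∀ G : (ι → ℂ) → ℂ, Differentiable ℂ G →
      AnalyticOnNhd ℂ (fun w => G (fun i => Y i w)) (Om ρ δ') := by
    intro G hG
    refine DifferentiableOn.analyticOnNhd ?_ (Om_open ρ δ')
    exact hG.comp_differentiableOn (differentiableOn_pi.2 hYd)
  have hGan' : ∀ G : (ι → ℂ) → ℂ, Differentiable ℂ G →
      AnalyticOnNhd ℂ (fun t => G (fun i => f i t)) Ω := by
    intro G hG
    refine DifferentiableOn.analyticOnNhd ?_ hΩ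
    exact hG.comp_differentiableOn (differentiableOn_pi.2 hf)
  refine ⟨E, R, t₁, fun i s => g i (s ^ e' i), hE, hR0, hR1, ?_, ?_, ?_⟩
  · intro s hs
    obtain ⟨w, hw1, hw2⟩ := hsurj s hs
    rw [← hw2]
    have h3 := hFY w (by rw [hw1]; exact hs)
    have h4 := h3.2 i₀
    rw [hw1] at h4
    simp only
    rw [h4]
    exact hYi0 w (Or.inl h3.1)
  · intro i
    exact mer_pow (he'1 i) hR1.le (hRr i) (hg i)
  · intro G hG
    have hall : (∀ w ∈ Om ρ δ', G (fun i => Y i w) = 0) ↔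
        ∀ s ∈ U R, G (fun i => g i (s ^ e' i)) = 0 := by
      constructor
      · intro h s hs
        obtain ⟨w, hw1, hw2⟩ := hsurj s hs
        have h3 := hFY w (by rw [hw1]; exact hs)
        rw [hw1] at h3
        have h4 := h w (Or.inl h3.1)
        simp only [h3.2]
        exact h4
      · intro h
        have hopen : IsOpen {w : ℂ | exp (-w / E) ∈ U R} := by
          have hcont : Continuous (fun w : ℂ => ‖exp (-w / E)‖) := by fun_prop
          exact (isOpen_lt continuous_const hcont).inter (isOpen_lt hcont continuous_const)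
        obtain ⟨s, hs⟩ : (U R).Nonempty := by
          refine ⟨((R / 2 : ℝ) : ℂ), ?_, ?_⟩
          · rw [norm_real, Real.norm_eq_abs, abs_of_pos (by linarith)]
            linarith
          · rw [norm_real, Real.norm_eq_abs, abs_of_pos (by linarith)]
            linarith
        obtain ⟨w, hw1, hw2⟩ := hsurj s hs
        have hwm : exp (-w / E) ∈ U R := by rw [hw1]; exact hs
        refine fun v hv => (hGan G hG).eqOn_zero_of_preconnected_of_eventuallyEq_zero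
          (Om_pre ρ δ' hδ') (z₀ := w) (Or.inl (hFY w hwm).1) ?_ hv
        filter_upwards [hopen.mem_nhds hwm] with v hv
        have h3 := h _ hv
        simp only [(hFY v hv).2] at h3
        exact h3
    rw [← hall]
    constructor
    · intro h
      refine fun v hv => (hGan G hG).eqOn_zero_of_preconnected_of_eventuallyEq_zero
        (Om_pre ρ δ' hδ') hw₀ ?_ hv
      have h3 : ∀ᶠ w in 𝓝 w₀, ∀ i, Y i w = f i (t₁ + exp w) := by
        rw [Filter.eventually_all]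
        exact hYloc
      filter_upwards [h3, hφΩ] with w hw hw'
      simp only [hw]
      exact h _ hw'
    · intro h
      refine fun v hv => (hGan' G hG).eqOn_zero_of_preconnected_of_eventuallyEq_zero
        hpc hφ₀ ?_ hv
      have hd : HasStrictDerivAt (fun w => t₁ + exp w) (exp w₀) w₀ :=
        (Complex.hasStrictDerivAt_exp w₀).const_add t₁
      have hmap := hd.map_nhds_eq (exp_ne_zero w₀)
      have h3 : ∀ᶠ w in 𝓝 w₀, ∀ i, Y i w = f i (t₁ + exp w) := by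
        rw [Filter.eventually_all]
        exact hYloc
      change ∀ᶠ t in 𝓝 (t₁ + exp w₀), G (fun i => f i t) = 0
      rw [← hmap, Filter.eventually_map]
      filter_upwards [h3, (Om_open ρ δ').mem_nhds hw₀] with w hw hw'
      have h4 := h w hw'
      simp only [hw] at h4
      exact h4

end Pool.Agent.W848.GF
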