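import Pool.Agent.W175.GF.Stm

set_option autoImplicit false

namespace Pool.Agent.W848.GF

open Complex Topology Filter Pool.Agent.W175.GF

/-- the two variable function -/
noncomputable def PP (d : ℕ) (c : ℕ → ℂ → ℂ) (p : ℂ × ℂ) : ℂ :=
  ∑ k ∈ Finset.range (d + 1), c k p.1 * p.2 ^ k

/-- the total space -/
def EE (Ω : Set ℂ) (d : ℕ) (c : ℕ → ℂ → ℂ) : Set (Ω × ℂ) := {p | PP d c (p.1, p.2) = 0}

/-- the projection -/
def pr (Ω : Set ℂ) (d : ℕ) (c : ℕ → ℂ → ℂ) : EE Ω d c → Ω := fun e => e.1.1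

lemma anal {Ω : Set ℂ} {d : ℕ} {c : ℕ → ℂ → ℂ} (hΩ : IsOpen Ω)
    (hc : ∀ k, DifferentiableOn ℂ (c k) Ω) (p : ℂ × ℂ) (hp : p.1 ∈ Ω) :
    AnalyticAt ℂ (PP d c) p := by
  unfold PP
  refine Finset.analyticAt_fun_sum _ (fun k _ => ?_)
  refine AnalyticAt.mul ?_ (analyticAt_snd.pow k)
  exact ((hc k).analyticAt (hΩ.mem_nhds hp)).comp analyticAt_fst

lemma inv_of_ne {L : ℂ →L[ℂ] ℂ} (h : L 1 ≠ 0) : L.IsInvertible := by
  refine ⟨ContinuousLinearEquiv.unitsEquivAut ℂ (Units.mk0 (L 1) h), ?_⟩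
  ext
  simp

lemma fd {Ω : Set ℂ} {d : ℕ} {c : ℕ → ℂ → ℂ} (hΩ : IsOpen Ω)
    (hc : ∀ k, DifferentiableOn ℂ (c k) Ω) (p : ℂ × ℂ) (hp : p.1 ∈ Ω) :
    (fderiv ℂ (PP d c) p ∘L .inr ℂ ℂ ℂ) 1 =
      ∑ k ∈ Finset.range (d + 1), k * c k p.1 * p.2 ^ (k - 1) := by
  have h1 : HasFDerivAt (PP d c) (fderiv ℂ (PP d c) p) p :=
    (anal hΩ hc p hp).differentiableAt.hasFDerivAt
  have h2 : HasDerivAt (fun y : ℂ => (p.1, y)) ((0 : ℂ), (1 : ℂ)) p.2 :=
    (hasDerivAt_const p.2 p.1).prodMk (hasDerivAt_id p.2)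
  have h3 : HasDerivAt (fun y : ℂ => PP d c (p.1, y)) (fderiv ℂ (PP d c) p (0, 1)) p.2 :=
    HasFDerivAt.comp_hasDerivAt (f := fun y : ℂ => (p.1, y)) (l := PP d c) p.2
      (show HasFDerivAt (PP d c) (fderiv ℂ (PP d c) p) ((fun y : ℂ => (p.1, y)) p.2) from h1) h2
  have h4 : HasDerivAt (fun y : ℂ => PP d c (p.1, y))
      (∑ k ∈ Finset.range (d + 1), k * c k p.1 * p.2 ^ (k - 1)) p.2 := by
    unfold PP
    refine HasDerivAt.fun_sum (fun k _ => ?_)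
    have := (hasDerivAt_pow k p.2).const_mul (c k p.1)
    refine this.congr_deriv ?_
    ring
  rw [← h3.unique h4]
  simp

/-- the implicit function -/
lemma impl {Ω : Set ℂ} {d : ℕ} {c : ℕ → ℂ → ℂ} (hΩ : IsOpen Ω)
    (hc : ∀ k, DifferentiableOn ℂ (c k) Ω) (p : ℂ × ℂ) (hp : p.1 ∈ Ω) (h0 : PP d c p = 0)
    (h1 : ∑ k ∈ Finset.range (d + 1), k * c k p.1 * p.2 ^ (k - 1) ≠ 0) :
    ∃ ψ : ℂ → ℂ, DifferentiableAt ℂ ψ p.1 ∧ ψ p.1 = p.2 ∧
      (∀ᶠ v in 𝓝 p, PP d c v = 0 ↔ ψ v.1 = v.2) ∧ ∀ᶠ x in 𝓝 p.1, PP d c (x, ψ x) = 0 := by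
  have hs := (anal (d := d) hΩ hc p hp).hasStrictFDerivAt
  have hi : (fderiv ℂ (PP d c) p ∘L .inr ℂ ℂ ℂ).IsInvertible := by
    apply inv_of_ne
    rw [fd hΩ hc p hp]
    exact h1
  refine ⟨hs.implicitFunctionOfProdDomain hi, ?_, ?_, ?_, ?_⟩
  · exact (hs.hasStrictFDerivAt_implicitFunctionOfProdDomain hi).differentiableAt
  · have := (hs.eventually_apply_eq_iff_implicitFunctionOfProdDomain hi).self_of_nhds
    exact this.1 rfl
  · have := hs.eventually_apply_eq_iff_implicitFunctionOfProdDomain hi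
    rwa [h0] at this
  · have := hs.eventually_apply_implicitFunctionOfProdDomain hi
    rwa [h0] at this

lemma pr_cont {Ω : Set ℂ} {d : ℕ} {c : ℕ → ℂ → ℂ} : Continuous (pr Ω d c) := by
  unfold pr
  fun_prop

lemma pr_open {Ω : Set ℂ} {d : ℕ} {c : ℕ → ℂ → ℂ} (hΩ : IsOpen Ω)
    (hc : ∀ k, DifferentiableOn ℂ (c k) Ω)
    (hs : ∀ w ∈ Ω, ∀ y : ℂ, ∑ k ∈ Finset.range (d + 1), c k w * y ^ k = 0 →
      ∑ k ∈ Finset.range (d + 1), k * c k w * y ^ (k - 1) ≠ 0) : IsOpenMap (pr Ω d c) := by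
  rw [isOpenMap_iff_nhds_le]
  rintro ⟨⟨w, y⟩, he⟩
  obtain ⟨ψ, hd, hψ, h1, h2⟩ := impl hΩ hc ((w : ℂ), y) w.2 he (hs _ w.2 y he)
  simp only at hd hψ h1 h2
  intro S hS
  rw [mem_map, nhds_subtype_eq_comap, mem_comap] at hS
  obtain ⟨T, hT, hTS⟩ := hS
  have h3 : Tendsto (fun v : Ω => ((v, ψ v) : Ω × ℂ)) (𝓝 w) (𝓝 (w, y)) := by
    have hc1 : ContinuousAt (fun v : Ω => ψ v) w :=
      ContinuousAt.comp (f := fun v : Ω => (v : ℂ)) (g := ψ) hd.continuousAt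
        continuous_subtype_val.continuousAt
    have := (continuousAt_id (x := w)).prodMk hc1
    have h4 := this.tendsto
    simp only [id, hψ] at h4
    exact h4
  have h5 : ∀ᶠ v : Ω in 𝓝 w, ((v, ψ v) : Ω × ℂ) ∈ T := h3 hT
  have h6 : ∀ᶠ v : Ω in 𝓝 w, PP d c (v, ψ v) = 0 :=
    (continuous_subtype_val.tendsto w).eventually h2
  filter_upwards [h5, h6] with v hv hv'
  exact hTS (a := ⟨(v, ψ v), hv'⟩) hv

lemma pr_loc {Ω : Set ℂ} {d : ℕ} {c : ℕ → ℂ → ℂ} (hΩ : IsOpen Ω)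
    (hc : ∀ k, DifferentiableOn ℂ (c k) Ω)
    (hs : ∀ w ∈ Ω, ∀ y : ℂ, ∑ k ∈ Finset.range (d + 1), c k w * y ^ k = 0 →
      ∑ k ∈ Finset.range (d + 1), k * c k w * y ^ (k - 1) ≠ 0) :
    IsLocalHomeomorph (pr Ω d c) := by
  rw [isLocalHomeomorph_iff_isOpenEmbedding_restrict]
  rintro ⟨⟨w, y⟩, he⟩
  obtain ⟨ψ, hd, hψ, h1, h2⟩ := impl hΩ hc ((w : ℂ), y) w.2 he (hs _ w.2 y he)
  simp only at hd hψ h1 h2
  have hmap : Continuous (fun e : EE Ω d c => (((e.1.1 : Ω) : ℂ), e.1.2)) := by fun_prop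
  have h3 : ∀ᶠ e : EE Ω d c in 𝓝 ⟨(w, y), he⟩,
      (PP d c (((e.1.1 : Ω) : ℂ), e.1.2) = 0 ↔ ψ e.1.1 = e.1.2) :=
    (hmap.tendsto ⟨(w, y), he⟩).eventually h1
  obtain ⟨U, hU, hUo, hUx⟩ := mem_nhds_iff.1 h3
  refine ⟨U, hUo.mem_nhds hUx, ?_⟩
  refine IsOpenEmbedding.of_continuous_injective_isOpenMap
    (pr_cont.comp continuous_subtype_val) ?_ ((pr_open hΩ hc hs).domRestrict hUo)
  rintro ⟨⟨⟨w1, y1⟩, e1⟩, u1⟩ ⟨⟨⟨w2, y2⟩, e2⟩, u2⟩ h
  have hw : w1 = w2 := h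
  have a1 : ψ w1 = y1 := (hU u1).1 e1
  have a2 : ψ w2 = y2 := (hU u2).1 e2
  subst hw
  have : y1 = y2 := a1.symm.trans a2
  subst this
  rfl

lemma EE_closed {Ω : Set ℂ} {d : ℕ} {c : ℕ → ℂ → ℂ}
    (hc : ∀ k, DifferentiableOn ℂ (c k) Ω) : IsClosed (EE Ω d c) := by
  have h : Continuous (fun p : Ω × ℂ => PP d c (p.1, p.2)) := by
    unfold PP
    refine continuous_finsetSum _ (fun k _ => ?_)
    have h1 : Continuous (fun w : Ω => c k w) := (hc k).continuousOn.domRestrict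
    exact (h1.comp continuous_fst).mul (continuous_snd.pow k)
  exact isClosed_eq h continuous_const

/-- roots are bounded in terms of the coefficients -/
lemma root_bound {d : ℕ} {c : ℕ → ℂ} {y : ℂ} (hd : c d ≠ 0)
    (h : ∑ k ∈ Finset.range (d + 1), c k * y ^ k = 0) :
    ‖y‖ ≤ 1 + ∑ k ∈ Finset.range d, ‖c k‖ / ‖c d‖ := by
  by_cases hy : ‖y‖ ≤ 1
  · have : 0 ≤ ∑ k ∈ Finset.range d, ‖c k‖ / ‖c d‖ :=
      Finset.sum_nonneg (fun k _ => by positivity)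
    linarith
  push Not at hy
  rcases Nat.eq_zero_or_pos d with h0 | h0
  · subst h0
    simp at h
    exact absurd h hd
  rw [Finset.sum_range_succ] at h
  have h1 : c d * y ^ d = -∑ k ∈ Finset.range d, c k * y ^ k := by
    linear_combination h
  have h2 : ‖c d‖ * ‖y‖ ^ d ≤ ∑ k ∈ Finset.range d, ‖c k‖ * ‖y‖ ^ (d - 1) := by
    rw [← norm_pow, ← norm_mul, h1, norm_neg]
    refine (norm_sum_le _ _).trans (Finset.sum_le_sum (fun k hk => ?_))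
    rw [norm_mul, norm_pow]
    have hk' := Finset.mem_range.1 hk
    exact mul_le_mul_of_nonneg_left (pow_le_pow_right₀ hy.le (by omega)) (norm_nonneg _)
  have hcd : 0 < ‖c d‖ := norm_pos_iff.2 hd
  have hyp : 0 < ‖y‖ ^ (d - 1) := by positivity
  have h3 : ‖y‖ ≤ ∑ k ∈ Finset.range d, ‖c k‖ / ‖c d‖ := by
    rw [← Finset.sum_div, le_div_iff₀ hcd]
    rw [← Finset.sum_mul] at h2
    have h4 : ‖y‖ ^ d = ‖y‖ * ‖y‖ ^ (d - 1) := by
      rw [← pow_succ']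
      congr 1
      omega
    rw [h4] at h2
    have h5 : (‖y‖ * ‖c d‖) * ‖y‖ ^ (d - 1) ≤
        (∑ i ∈ Finset.range d, ‖c i‖) * ‖y‖ ^ (d - 1) := by
      calc _ = ‖c d‖ * (‖y‖ * ‖y‖ ^ (d - 1)) := by ring
        _ ≤ _ := h2
    exact le_of_mul_le_mul_right h5 hyp
  linarith

lemma pr_proper {Ω : Set ℂ} {d : ℕ} {c : ℕ → ℂ → ℂ} (hΩ : IsOpen Ω)
    (hc : ∀ k, DifferentiableOn ℂ (c k) Ω) (hd : ∀ w ∈ Ω, c d w ≠ 0) :
    IsClosedMap (pr Ω d c) := by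
  have : LocallyCompactSpace Ω := hΩ.locallyCompactSpace
  have : IsProperMap (pr Ω d c) := by
    rw [isProperMap_iff_isCompact_preimage]
    refine ⟨pr_cont, fun K hK => ?_⟩
    have hcont : ContinuousOn (fun w : Ω => 1 + ∑ k ∈ Finset.range d, ‖c k w‖ / ‖c d w‖) K := by
      have h1 : ∀ k, Continuous (fun w : Ω => c k w) := fun k => (hc k).continuousOn.domRestrict
      have : Continuous (fun w : Ω => 1 + ∑ k ∈ Finset.range d, ‖c k w‖ / ‖c d w‖) := by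
        refine continuous_const.add (continuous_finsetSum _ (fun k _ => ?_))
        exact (h1 k).norm.div (h1 d).norm (fun w => norm_ne_zero_iff.2 (hd w w.2))
      exact this.continuousOn
    obtain ⟨R, hR⟩ := hK.bddAbove_image hcont
    have h2 : IsCompact ((Subtype.val : EE Ω d c → Ω × ℂ) ⁻¹' (K ×ˢ Metric.closedBall 0 R)) :=
      (EE_closed hc).isClosedEmbedding_subtypeVal.isCompact_preimage
        (hK.prod (isCompact_closedBall 0 R))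
    convert h2 using 1
    ext ⟨⟨w, y⟩, he⟩
    simp only [Set.mem_preimage, pr, Set.mem_prod, Metric.mem_closedBall, dist_zero_right]
    constructor
    · intro hw
      refine ⟨hw, ?_⟩
      have h3 := hR (Set.mem_image_of_mem _ hw)
      have h4 := root_bound (c := fun k => c k w) (y := y) (hd w w.2) he
      exact h4.trans h3
    · exact fun h => h.1
  exact this.isClosedMap

lemma pr_fin {Ω : Set ℂ} {d : ℕ} {c : ℕ → ℂ → ℂ} (hd : ∀ w ∈ Ω, c d w ≠ 0) (w : Ω) :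
    (pr Ω d c ⁻¹' {w}).Finite := by
  let p : Polynomial ℂ := ∑ k ∈ Finset.range (d + 1), Polynomial.monomial k (c k w)
  have hp : p ≠ 0 := by
    intro h
    have : p.coeff d = c d w := by
      simp [p, Polynomial.coeff_monomial]
    rw [h] at this
    exact hd w w.2 (by simpa using this.symm)
  have hfin : {y : ℂ | p.IsRoot y}.Finite := Polynomial.finite_setOfPred_isRoot hp
  refine Set.Finite.of_finite_image (f := fun e : EE Ω d c => e.1.2) (hfin.subset ?_) ?_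
  · rintro y ⟨⟨⟨w', y'⟩, he⟩, hw, rfl⟩
    have hw' : w' = w := hw
    subst hw'
    simp only [Set.mem_ofPred_eq, Polynomial.IsRoot, p, Polynomial.eval_finsetSum,
      Polynomial.eval_monomial]
    exact he
  · rintro ⟨⟨w1, y1⟩, e1⟩ h1 ⟨⟨w2, y2⟩, e2⟩ h2 h
    have a1 : w1 = w := h1
    have a2 : w2 = w := h2
    have a3 : y1 = y2 := h
    subst a1 a3
    subst a2
    rfl

lemma pr_cov {Ω : Set ℂ} {d : ℕ} {c : ℕ → ℂ → ℂ} (hΩ : IsOpen Ω)
    (hc : ∀ k, DifferentiableOn ℂ (c k) Ω) (hd : ∀ w ∈ Ω, c d w ≠ 0)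
    (hs : ∀ w ∈ Ω, ∀ y : ℂ, ∑ k ∈ Finset.range (d + 1), c k w * y ^ k = 0 →
      ∑ k ∈ Finset.range (d + 1), k * c k w * y ^ (k - 1) ≠ 0) :
    IsCoveringMap (pr Ω d c) := by
  intro x
  refine (pr_proper hΩ hc hd).isEvenlyCovered_of_openPartialHomeomorph (pr_fin hd x) ?_
  intro e _
  obtain ⟨φ, h1, h2⟩ := pr_loc hΩ hc hs e
  exact ⟨φ, h1, h2.symm⟩

theorem lift : S_LIFT := by
  intro Ω w₁ w₀ y₀ d c hΩ h1 hst h0 hc hd hs hy0
  have : ContractibleSpace Ω := hst.contractibleSpace ⟨w₁, h1⟩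
  have : LocallyPathConnectedSpace Ω := hΩ.locallyPathConnectedSpace
  have cov := pr_cov hΩ hc hd hs
  obtain ⟨F, ⟨hF1, hF2⟩, -⟩ := cov.existsUnique_continuousMap_lifts (ContinuousMap.id Ω)
    ⟨w₀, h0⟩ ⟨(⟨w₀, h0⟩, y₀), hy0⟩ rfl
  have hF3 : ∀ w : Ω, (F w).1.1 = w := fun w => congrFun hF2 w
  have hF4 : ∀ w : Ω, PP d c (w, (F w).1.2) = 0 := by
    intro w
    have := (F w).2
    have h5 : PP d c ((F w).1.1, (F w).1.2) = 0 := this
    rwa [hF3 w] at h5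
  classical
  let Y : ℂ → ℂ := fun w => if h : w ∈ Ω then (F ⟨w, h⟩).1.2 else 0
  have hY : ∀ w : Ω, Y w = (F w).1.2 := by
    intro w
    simp only [Y, dif_pos w.2]
  have hYc : ContinuousOn Y Ω := by
    rw [continuousOn_iff_continuous_domRestrict]
    have : Ω.domRestrict Y = fun w : Ω => (F w).1.2 := by
      ext w
      exact hY w
    rw [this]
    exact continuous_snd.comp (continuous_subtype_val.comp F.continuous)
  refine ⟨Y, ?_, ?_, ?_⟩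
  · intro w hw
    have hw0 : PP d c (w, Y w) = 0 := by
      have := hF4 ⟨w, hw⟩
      rw [← hY] at this
      exact this
    obtain ⟨ψ, hd, hψ, h1, h2⟩ := impl hΩ hc (w, Y w) hw hw0 (hs _ hw _ hw0)
    have h3 : ∀ᶠ v in 𝓝 w, ψ v = Y v := by
      have h4 : Tendsto (fun v => (v, Y v)) (𝓝 w) (𝓝 (w, Y w)) :=
        (continuousAt_id.prodMk (hYc.continuousAt (hΩ.mem_nhds hw))).tendsto
      filter_upwards [h4.eventually h1, hΩ.mem_nhds hw] with v hv hvΩ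
      apply hv.1
      have := hF4 ⟨v, hvΩ⟩
      rw [← hY] at this
      exact this
    have h5 : DifferentiableAt ℂ ψ w := hd
    exact (h5.congr_of_eventuallyEq (Filter.EventuallyEq.symm h3)).differentiableWithinAt
  · have := hY ⟨w₀, h0⟩
    rw [this, hF1]
  · intro w hw
    have := hF4 ⟨w, hw⟩
    rw [← hY] at this
    exact this

end Pool.Agent.W848.GF
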